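import Pool.Agent.Run7.h922.GG.Red

/-!
# The isomorphism problem for geodetic graphs is GI-complete

Given a graph `X`, take as points the edges of `X` and three private points of every vertex, and as
lines the stars of the vertices together with their private points; two of these lines meet iff the
two vertices are adjacent.  Add all pairs of points which are not on one of these lines as lines
with two points.  In the linear space obtained, take the graph whose vertices are the points and the
flags, where a point is adjacent to its flags and two flags with the same line are adjacent.  The
flag graph of *every* linear space is geodetic, of diameter at most five; for the linear space of a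
graph `X` its triangles determine `X` up to isomorphism.
-/

set_option autoImplicit false

namespace Pool.Agent.Results.MP_f934c9_lc.GIComplete

open Pool.Agent.NPC Pool.Agent.NPC.R671 Pool.Agent.Y815.GI Pool.Agent.Run7.h922.GG

/-- **The isomorphism problem for geodetic graphs is GI-complete**, already for geodetic graphs
without cut vertices and of diameter at most five.

* There is a polynomial-time computable function `f` on bit strings such that, for *every* bit
  string `x`, the value `f x` codes a pair of adjacency matrices of finite geodetic graphs `X'`,
  `Y'` without cut vertices and of diameter at most five, and `x` is a yes-instance of the graph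
  isomorphism problem for arbitrary finite graphs iff `X'` and `Y'` are isomorphic.
* In particular graph isomorphism is polynomial-time many-one reducible to the isomorphism problem
  for geodetic graphs, as languages.
* A polynomial-time algorithm which decides isomorphism for all pairs of geodetic graphs (the
  algorithm asked for; nothing is required on other inputs) exists iff the graph isomorphism problem
  is in `P`. -/
theorem result :
    (∃ f : List Bool → List Bool, PolyTime f ∧ ∀ x : List Bool,
      ∃ (N M : ℕ) (X' : SimpleGraph (Fin N)) (Y' : SimpleGraph (Fin M)),
        f x = bits (adjMatrix X', adjMatrix Y') ∧
          (Geodetic X' ∧ NoCut X' ∧ ∀ u v, X'.dist u v ≤ 5) ∧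
          (Geodetic Y' ∧ NoCut Y' ∧ ∀ u v, Y'.dist u v ≤ 5) ∧
          (x ∈ lang GraphIso ↔ Nonempty (X' ≃g Y'))) ∧
    Reduces (lang GraphIso) (lang GeodeticIso) ∧
    ((∃ A : List Bool → List Bool, PolyTime A ∧
      ∀ (N M : ℕ) (X : SimpleGraph (Fin N)) (Y : SimpleGraph (Fin M)), Geodetic X → Geodetic Y →
        (A (bits (adjMatrix X, adjMatrix Y)) = [true] ↔ Nonempty (X ≃g Y))) ↔
      InP (lang GraphIso)) :=
  ⟨Pool.Agent.Run7.h922.GG.main, Pool.Agent.Run7.h922.GG.reduces, promise_iff⟩

end Pool.Agent.Results.MP_f934c9_lc.GIComplete
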